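import Mathlib
import Pool.Agent.WeilUniform.Defs

/-!
# Numerically trivial cycles and sign projectors

Further definitions for the statement of the theorem on universal Lefschetz inverses.
-/

open CategoryTheory MonoidalCategory CartesianMonoidalCategory

namespace Pool.Agent.Weil

universe v u w x y

variable {𝒱 : Type u} [Category.{v} 𝒱] [CartesianMonoidalCategory 𝒱]

/-- The cycle class `w` on `X` is numerically trivial: the degree of `w · z` is zero for every
cycle class `z` on `X`. -/
def IntersectionTheory.IsNumTrivial (T : IntersectionTheory.{v, u, w} 𝒱) {X : 𝒱} (w : T.obj X) :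
    Prop :=
  ∀ z : T.obj X, T.lower (toUnit X) (T.cup w z) = 0

variable {T : IntersectionTheory.{v, u, w} 𝒱} {K : Type x} [Field K]

/-- The correspondence `p` on `X × X` induces a projector of the cohomology `H(X)` which is the
identity on `H^i(X)` and zero on `H^j(X)` for all `j` such that `j - i` is odd. Examples are
correspondences inducing the projection to `H^i(X)`, or the projection to the even part (`i` even)
or to the odd part (`i` odd) of `H(X)`. -/
def WeilCohomology.IsSignProjector (W : WeilCohomology.{v, u, w, x, y} T K) {X : 𝒱} (i : ℕ)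
    (p : T.obj (X ⊗ X)) : Prop :=
  (∀ α : W.obj X, W.act p (W.act p α) = W.act p α) ∧
    (∀ α : W.obj X, W.InDegree i α → W.act p α = α) ∧
      ∀ (j : ℤ) (α : W.obj X), Odd (j - i) → W.InDegree j α → W.act p α = 0

/-- Numerically trivial cycle classes of codimension `2n - i` on `X × X`, where `n = dim X`, act as
zero on `H^i(X)`. -/
def WeilCohomology.KillsNumTrivial (W : WeilCohomology.{v, u, w, x, y} T K) (X : 𝒱) (i : ℕ) :
    Prop :=
  ∀ w : T.obj (X ⊗ X), T.InDegree (2 * T.dim X - i) w → T.IsNumTrivial w →
    ∀ α : W.obj X, W.InDegree i α → W.act w α = 0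

end Pool.Agent.Weil
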