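import Mathlib
import Pool.Agent.WeilUniform.LinAlg

/-!
# Quasi-inverses modulo the radical of a supertrace form

Let `A` be a ring of endomorphisms of a finite dimensional `K`-vector space `V`, stable under
multiplication by rational numbers, and let `s` be an operator commuting with `A` such that the
traces `tr (a s)`, `a ∈ A`, are rational. Then every `u ∈ A` has a quasi-inverse `v ∈ A` modulo the
radical of the form `(a, b) ↦ tr (a b s)`. This is the argument of Jannsen.
-/

namespace Pool.Agent.H94.Univ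

/-- semisimple rings are von Neumann regular -/
lemma exists_regular {R : Type*} [Ring R] [IsSemisimpleRing R] (u : R) :
    ∃ a : R, u * a * u = u := by
  obtain ⟨N, hN⟩ := exists_isCompl (Submodule.span R {u})
  have h1 : (1 : R) ∈ Submodule.span R {u} ⊔ N := by rw [hN.sup_eq_top]; trivial
  obtain ⟨x, hx, n, hn, hxn⟩ := Submodule.mem_sup.1 h1
  obtain ⟨a, ha⟩ := Submodule.mem_span_singleton.1 hx
  rw [smul_eq_mul] at ha
  refine ⟨a, ?_⟩
  have h2 : u * n = u - u * a * u := by
    have h : u * (a * u + n) = u := by rw [ha, hxn, mul_one]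
    rw [mul_add, ← mul_assoc] at h
    exact eq_sub_of_add_eq' h
  have h3 : u * n ∈ N := N.smul_mem u hn
  have h4 : u * n ∈ Submodule.span R {u} := by
    rw [h2]
    exact sub_mem (Submodule.mem_span_singleton_self u)
      ((Submodule.span R {u}).smul_mem (u * a) (Submodule.mem_span_singleton_self u))
  have h5 : u * n = 0 := by
    have h := Submodule.mem_inf.2 ⟨h4, h3⟩
    rw [hN.inf_eq_bot] at h
    exact (Submodule.mem_bot R).1 h
  rw [h5] at h2
  exact (sub_eq_zero.1 h2.symm).symm

/-- in an Artinian ring there are quasi-inverses modulo the radical -/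
lemma exists_regular_mod_nil {R : Type*} [Ring R] [IsArtinianRing R] (u : R) :
    ∃ a : R, ∀ c : R, IsNilpotent ((u * a * u - u) * c) := by
  obtain ⟨b, hb⟩ := exists_regular (Ideal.Quotient.mk (Ring.jacobson R) u)
  obtain ⟨a, rfl⟩ := Ideal.Quotient.mk_surjective b
  refine ⟨a, fun c => ?_⟩
  have h1 : u * a * u - u ∈ Ring.jacobson R := by
    rw [← map_mul, ← map_mul] at hb
    exact Ideal.Quotient.eq.1 hb
  have h2 : (u * a * u - u) * c ∈ Ring.jacobson R := Ideal.mul_mem_right c _ h1
  obtain ⟨n, hn⟩ := IsSemiprimaryRing.isNilpotent (R := R)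
  refine ⟨n, ?_⟩
  have h3 := Ideal.pow_mem_pow h2 n
  rw [hn] at h3
  exact h3

variable {K V : Type*} [Field K] [CharZero K] [AddCommGroup V] [Module K V]
  [FiniteDimensional K V]

/-- Rational descent: elements of the `K`-span of `A` can be replaced by elements of `A`. -/
lemma exists_descent (A : Subring (Module.End K V)) (s : Module.End K V)
    (hsmul : ∀ a ∈ A, ∀ q : ℚ, (q : K) • a ∈ A)
    (hrat : ∀ a ∈ A, ∃ t : ℚ, LinearMap.trace K V (a * s) = t)
    (ρ : K →ₗ[ℚ] ℚ) {v' : Module.End K V}
    (hv' : v' ∈ Submodule.span K (A : Set (Module.End K V))) :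
    ∀ l : K, ∃ v ∈ A, ∀ a ∈ A, ∀ b ∈ A, ((ρ (l * LinearMap.trace K V (a * v' * b * s)) : ℚ) : K) =
      LinearMap.trace K V (a * v * b * s) := by
  induction hv' using Submodule.span_induction with
  | mem v0 h0 =>
    intro l
    refine ⟨((ρ l : ℚ) : K) • v0, hsmul _ h0 _, fun a ha b hb => ?_⟩
    obtain ⟨t, ht⟩ := hrat _ (A.mul_mem (A.mul_mem ha h0) hb)
    have h1 : l * ((t : ℚ) : K) = t • l := by rw [Rat.smul_def, mul_comm]
    rw [ht, h1, map_smul, mul_smul_comm, smul_mul_assoc, smul_mul_assoc, map_smul, ht, smul_eq_mul,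
      smul_eq_mul]
    push_cast
    ring
  | zero =>
    intro l
    refine ⟨0, A.zero_mem, fun a _ b _ => ?_⟩
    simp
  | add x y _ _ hx hy =>
    intro l
    obtain ⟨v, hv, h1⟩ := hx l
    obtain ⟨w, hw, h2⟩ := hy l
    refine ⟨v + w, A.add_mem hv hw, fun a ha b hb => ?_⟩
    have e1 : a * (x + y) * b * s = a * x * b * s + a * y * b * s := by noncomm_ring
    have e2 : a * (v + w) * b * s = a * v * b * s + a * w * b * s := by noncomm_ring
    rw [e1, e2, map_add, map_add, mul_add, map_add, ← h1 a ha b hb, ← h2 a ha b hb]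
    push_cast
    ring
  | smul c x _ hx =>
    intro l
    obtain ⟨v, hv, h1⟩ := hx (l * c)
    refine ⟨v, hv, fun a ha b hb => ?_⟩
    rw [← h1 a ha b hb, mul_smul_comm, smul_mul_assoc, smul_mul_assoc, map_smul, smul_eq_mul,
      ← mul_assoc l c]

/-- **Quasi-inverses modulo the radical of the supertrace form.** -/
theorem exists_quasi_inverse (A : Subring (Module.End K V)) (s : Module.End K V)
    (hs : ∀ a ∈ A, Commute a s)
    (hsmul : ∀ a ∈ A, ∀ q : ℚ, (q : K) • a ∈ A)
    (hrat : ∀ a ∈ A, ∃ t : ℚ, LinearMap.trace K V (a * s) = t)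
    {u : Module.End K V} (hu : u ∈ A) :
    ∃ v ∈ A, ∀ c ∈ A, LinearMap.trace K V ((u * v * u - u) * c * s) = 0 := by
  obtain ⟨ρ, hρ⟩ := LinearMap.exists_leftInverse_of_injective (Algebra.linearMap ℚ K)
    (LinearMap.ker_eq_bot.2 (algebraMap ℚ K).injective)
  have hρq : ∀ q : ℚ, ρ (q : K) = q := fun q => LinearMap.congr_fun hρ q
  -- the `K`-algebra generated by `A`
  set B : Subalgebra K (Module.End K V) := Algebra.adjoin K (A : Set (Module.End K V)) with hB
  have hBspan : ∀ x ∈ B, x ∈ Submodule.span K (A : Set (Module.End K V)) := by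
    intro x hx
    have h1 : x ∈ Subalgebra.toSubmodule B := hx
    rw [hB, Algebra.adjoin_eq_span] at h1
    have h2 : (Submonoid.closure (A : Set (Module.End K V)) : Set (Module.End K V)) = A := by
      have h3 : Submonoid.closure (A : Set (Module.End K V)) = A.toSubmonoid :=
        Submonoid.closure_eq A.toSubmonoid
      rw [h3]; rfl
    rwa [h2] at h1
  have hAB : ∀ x ∈ A, x ∈ B := fun x hx => Algebra.subset_adjoin hx
  have hBs : ∀ x ∈ B, Commute x s := by
    intro x hx
    have h1 := hBspan x hx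
    clear hx
    induction h1 using Submodule.span_induction with
    | mem v0 h0 => exact hs _ h0
    | zero => exact Commute.zero_left s
    | add x y _ _ ihx ihy => exact ihx.add_left ihy
    | smul c x _ ih => exact ih.smul_left c
  have : IsArtinianRing B := IsArtinianRing.of_finite K B
  obtain ⟨a, ha⟩ := exists_regular_mod_nil (⟨u, hAB u hu⟩ : B)
  obtain ⟨v, hv, h1⟩ := exists_descent A s hsmul hrat ρ (hBspan _ a.2) 1
  refine ⟨v, hv, fun c hc => ?_⟩
  have h2 := h1 u hu (u * c) (A.mul_mem hu hc)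
  rw [one_mul] at h2
  -- the trace over `B` vanishes
  have h3 : LinearMap.trace K V ((u * (a : Module.End K V) * u - u) * c * s) = 0 := by
    apply Pool.Agent.WeilUniform.trace_eq_zero_of_isNilpotent
    have h4 := ha ⟨c, hAB c hc⟩
    have h5 : IsNilpotent ((u * (a : Module.End K V) * u - u) * c) := by
      have := h4.map B.val
      exact this
    have h6 : (u * (a : Module.End K V) * u - u) * c ∈ B :=
      B.mul_mem (B.sub_mem (B.mul_mem (B.mul_mem (hAB u hu) a.2) (hAB u hu)) (hAB u hu)) (hAB c hc)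
    exact (hBs _ h6).isNilpotent_mul_right h5
  obtain ⟨t, ht⟩ := hrat _ (A.mul_mem hu hc)
  have e1 : (u * (a : Module.End K V) * u - u) * c * s =
      u * (a : Module.End K V) * (u * c) * s - u * c * s := by noncomm_ring
  have e2 : (u * v * u - u) * c * s = u * v * (u * c) * s - u * c * s := by noncomm_ring
  rw [e1, map_sub, sub_eq_zero, ht] at h3
  rw [h3, hρq] at h2
  rw [e2, map_sub, ht, ← h2, sub_self]

end Pool.Agent.H94.Univ
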