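import Mathlib
import Pool.Agent.WeilUniform.MainPure
import Pool.Agent.H94.Univ.Regular

/-!
# Numerical equivalence and the supertrace form
-/

open CategoryTheory MonoidalCategory CartesianMonoidalCategory
open scoped TensorProduct

namespace Pool.Agent.WeilUniform

set_option linter.unusedSectionVars false

universe t v u w x y

variable {𝒱 : Type u} [Category.{v} 𝒱] [CartesianMonoidalCategory 𝒱]

namespace IntersectionTheory

variable (T : IntersectionTheory.{v, u, w} 𝒱) {X : 𝒱}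

/-- `w` is numerically trivial: all intersection numbers `deg (w · z)` vanish -/
def NumTriv (w : T.CH X) : Prop := ∀ z : T.CH X, T.push (toUnit X) (w * z) = 0

/-- the exchange of the last two factors -/
def exch (X : 𝒱) : (X ⊗ X) ⊗ X ⟶ (X ⊗ X) ⊗ X :=
  lift (lift (fst _ _ ≫ fst _ _) (snd _ _)) (fst _ _ ≫ snd _ _)

lemma exch_exch (X : 𝒱) : exch X ≫ exch X = 𝟙 _ := by
  unfold exch
  ext <;> simp

instance (X : 𝒱) : IsIso (exch X) := ⟨⟨exch X, exch_exch X, exch_exch X⟩⟩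

/-- transposition of correspondences -/
noncomputable def transpose (z : T.CH (X ⊗ X)) : T.CH (X ⊗ X) :=
  T.pull (lift (snd X X) (fst X X)) z

lemma transpose_transpose (z : T.CH (X ⊗ X)) : T.transpose (T.transpose z) = z := by
  unfold transpose
  rw [← T.pull_comp]
  have : lift (snd X X) (fst X X) ≫ lift (snd X X) (fst X X) = 𝟙 _ := by
    ext <;> simp
  rw [this, T.pull_id]

lemma push_exch (z : T.CH ((X ⊗ X) ⊗ X)) : T.push (exch X) z = T.pull (exch X) z := by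
  have h := T.push_iso (exch X) (T.pull (exch X) z)
  rwa [← T.pull_comp, exch_exch, T.pull_id] at h

/-- the restriction to the diagonal of a composition -/
lemma diag_comp (z z' : T.CH (X ⊗ X)) :
    T.pull (lift (𝟙 X) (𝟙 X)) (T.comp z z') = T.push (fst X X) (z * T.transpose z') := by
  have h1 : fst X X ▷ X = exch X ≫ fst (X ⊗ X) X := by
    unfold exch
    ext <;> simp
  have h2 : T.comp z z' = T.push (fst (X ⊗ X) X)
      (T.pull (exch X) (T.pull (fst (X ⊗ X) X) z * T.pull (snd X X ▷ X) z')) := by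
    unfold comp
    conv_lhs => rw [h1]
    rw [T.push_comp, T.push_exch]
  rw [h2, T.base_change]
  rw [map_mul, map_mul, ← T.pull_comp, ← T.pull_comp, ← T.pull_comp, ← T.pull_comp]
  congr 1
  have h3 : (lift (𝟙 X) (𝟙 X) ▷ X) ≫ exch X ≫ fst (X ⊗ X) X = 𝟙 _ := by
    unfold exch
    ext <;> simp
  have h4 : (lift (𝟙 X) (𝟙 X) ▷ X) ≫ exch X ≫ (snd X X ▷ X) = lift (snd X X) (fst X X) := by
    unfold exch
    ext <;> simp
  rw [Category.assoc, Category.assoc, h3, h4, T.pull_id]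
  rfl

lemma degree_comp (z z' : T.CH (X ⊗ X)) :
    T.push (toUnit X) (T.pull (lift (𝟙 X) (𝟙 X)) (T.comp z z')) =
      T.push (toUnit (X ⊗ X)) (z * T.transpose z') := by
  rw [diag_comp, ← T.push_comp, toUnit_unique (fst X X ≫ toUnit X) (toUnit (X ⊗ X))]

lemma numTriv_iff (w : T.CH (X ⊗ X)) : T.NumTriv w ↔
    ∀ c, T.push (toUnit X) (T.pull (lift (𝟙 X) (𝟙 X)) (T.comp w c)) = 0 := by
  constructor
  · intro h c
    rw [degree_comp]
    exact h _
  · intro h z
    have := h (T.transpose z)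
    rwa [degree_comp, transpose_transpose] at this

end IntersectionTheory

variable {ι : Type t} {T : IntersectionTheory.{v, u, w} 𝒱} {K : ι → Type x} [∀ ℓ, Field (K ℓ)]
  [∀ ℓ, CharZero (K ℓ)] (W : ∀ ℓ, WeilCohomology.{v, u, w, x, y} T (K ℓ)) {X : 𝒱}

lemma neg_one_pow_add_two_mul {R : Type*} [Ring R] (k r : ℤ) :
    (-1 : R) ^ (k + 2 * r).natAbs = (-1 : R) ^ k.natAbs := by
  rcases Int.even_or_odd k with h | h
  · rw [(Int.natAbs_even.2 h).neg_one_pow,
      (Int.natAbs_even.2 (h.add (even_two_mul r))).neg_one_pow]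
  · rw [(Int.natAbs_odd.2 h).neg_one_pow,
      (Int.natAbs_odd.2 (h.add_even (even_two_mul r))).neg_one_pow]

namespace OpSystem

variable {V : ι → Type*} [∀ ℓ, AddCommGroup (V ℓ)] [∀ ℓ, Module (K ℓ) (V ℓ)]
  [∀ ℓ, FiniteDimensional (K ℓ) (V ℓ)] (S : OpSystem ι K V)

/-- elements of `C r` commute with the sign operator -/
lemma comm_sgn {r : ℤ} {a} (ha : a ∈ S.C r) (ℓ : ι) : Commute (a ℓ) (S.sgn ℓ) := by
  apply S.ext_p
  intro k
  rw [mul_assoc, S.sgn_mul_p, mul_assoc, S.shift ha, ← mul_assoc, S.sgn_mul_p,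
    neg_one_pow_add_two_mul, mul_smul_comm, smul_mul_assoc, S.shift ha]

/-- elements of `C r`, `r ≠ 0`, have supertrace zero -/
lemma str_eq_zero {r : ℤ} (hr : r ≠ 0) {a} (ha : a ∈ S.C r) (ℓ : ι) : S.str ℓ (a ℓ) = 0 := by
  rw [str, sgn, Finset.mul_sum, tr_sum]
  refine Finset.sum_eq_zero fun j _ => ?_
  rw [mul_smul_comm, tr, map_smul]
  have h1 : LinearMap.trace (K ℓ) (V ℓ) (a ℓ * S.p ℓ j) = 0 := by
    have e1 : a ℓ * S.p ℓ j = (S.p ℓ (j + 2 * r) * a ℓ) * S.p ℓ j := by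
      rw [← S.shift ha, mul_assoc, S.p_idem]
    rw [e1, LinearMap.trace_mul_comm, ← mul_assoc, S.p_orth ℓ _ _ (by omega), zero_mul, map_zero]
  rw [h1, smul_zero]

end OpSystem

/-- all operators at `ℓ` given by correspondences -/
noncomputable def actSubring (X : 𝒱) (ℓ : ι) : Subring (Module.End (K ℓ) ((W ℓ).H X)) where
  carrier := Set.range (W ℓ).act
  mul_mem' := by
    rintro _ _ ⟨z, rfl⟩ ⟨z', rfl⟩
    exact ⟨T.comp z z', (W ℓ).act_comp z z'⟩
  one_mem' := by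
    refine ⟨T.push (lift (𝟙 X) (𝟙 X)) 1, ?_⟩
    ext α
    rw [(W ℓ).act_diag, map_one, one_mul]
    rfl
  add_mem' := by
    rintro _ _ ⟨z, rfl⟩ ⟨z', rfl⟩
    exact ⟨z + z', congrFun (map_add (actFamily W X) z z') ℓ⟩
  zero_mem' := ⟨0, congrFun (map_zero (actFamily W X)) ℓ⟩
  neg_mem' := by
    rintro _ ⟨z, rfl⟩
    exact ⟨-z, congrFun (map_neg (actFamily W X) z) ℓ⟩

lemma mem_actSubring {ℓ : ι} {a : Module.End (K ℓ) ((W ℓ).H X)} :
    a ∈ actSubring W X ℓ ↔ ∃ z, (W ℓ).act z = a := Iff.rfl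

lemma act_mem_C {z : T.CH (X ⊗ X)} {r : ℤ} (hz : z ∈ T.gr (X ⊗ X) r) :
    actFamily W X z ∈ (system W X).C (r - T.dim X) := by
  refine ⟨z, ?_, rfl⟩
  have e : (T.dim X : ℤ) + (r - T.dim X) = r := by ring
  change z ∈ T.gr (X ⊗ X) ((T.dim X : ℤ) + (r - T.dim X))
  rw [e]
  exact hz

/-- induction over homogeneous correspondences -/
lemma corr_ind {P : T.CH (X ⊗ X) → Prop} (h0 : P 0)
    (h1 : ∀ (r : ℤ) (z : T.CH (X ⊗ X)), z ∈ T.gr (X ⊗ X) r → P z)
    (h2 : ∀ z z', P z → P z' → P (z + z')) (z : T.CH (X ⊗ X)) : P z := by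
  induction z using DirectSum.Decomposition.inductionOn (T.gr (X ⊗ X)) with
  | zero => exact h0
  | homogeneous z => exact h1 _ _ z.2
  | add a b ha hb => exact h2 _ _ ha hb

lemma act_add' (ℓ : ι) (z z' : T.CH (X ⊗ X)) : (W ℓ).act (z + z') = (W ℓ).act z + (W ℓ).act z' :=
  congrFun (map_add (actFamily W X) z z') ℓ

lemma act_sub' (ℓ : ι) (z z' : T.CH (X ⊗ X)) : (W ℓ).act (z - z') = (W ℓ).act z - (W ℓ).act z' :=
  congrFun (map_sub (actFamily W X) z z') ℓ

lemma act_zero' (ℓ : ι) : (W ℓ).act (0 : T.CH (X ⊗ X)) = 0 :=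
  congrFun (map_zero (actFamily W X)) ℓ

lemma act_comm_sgn (ℓ : ι) (z : T.CH (X ⊗ X)) :
    Commute ((W ℓ).act z) ((system W X).sgn ℓ) := by
  refine corr_ind (P := fun z => Commute ((W ℓ).act z) ((system W X).sgn ℓ)) ?_ ?_ ?_ z
  · rw [act_zero' W]; exact Commute.zero_left _
  · intro r z hz
    exact (system W X).comm_sgn (act_mem_C W hz) ℓ
  · intro z z' hz hz'
    rw [act_add' W]; exact hz.add_left hz'

/-- the supertrace of a composition is the intersection number -/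
lemma str_act_eq (ℓ : ι) (z : T.CH (X ⊗ X)) (q : ℚ)
    (hq : T.push (toUnit X) (T.pull (lift (𝟙 X) (𝟙 X)) z) = algebraMap ℚ _ q) :
    (system W X).str ℓ ((W ℓ).act z) = q := by
  rw [← (W ℓ).supertrace_rat z q hq, OpSystem.str, OpSystem.sgn, Finset.mul_sum, OpSystem.tr_sum]
  refine Finset.sum_congr rfl fun j _ => ?_
  rw [mul_smul_comm, OpSystem.tr, map_smul, smul_eq_mul]
  rfl

lemma numTriv_iff_str (ℓ : ι) (w : T.CH (X ⊗ X)) : T.NumTriv w ↔
    ∀ a ∈ actSubring W X ℓ, (system W X).str ℓ ((W ℓ).act w * a) = 0 := by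
  rw [T.numTriv_iff]
  have key : ∀ c : T.CH (X ⊗ X), (system W X).str ℓ ((W ℓ).act w * (W ℓ).act c) = 0 ↔
      T.push (toUnit X) (T.pull (lift (𝟙 X) (𝟙 X)) (T.comp w c)) = 0 := by
    intro c
    obtain ⟨q, hq⟩ := T.point.2 (T.push (toUnit X) (T.pull (lift (𝟙 X) (𝟙 X)) (T.comp w c)))
    have h1 := str_act_eq W ℓ (T.comp w c) q hq.symm
    rw [(W ℓ).act_comp] at h1
    change (system W X).str ℓ ((W ℓ).act w ∘ₗ (W ℓ).act c) = 0 ↔ _
    rw [h1, ← hq]
    constructor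
    · intro h
      have : q = 0 := by exact_mod_cast h
      rw [this, map_zero]
    · intro h
      have : q = 0 := T.point.1 (by rw [h, map_zero])
      rw [this, Rat.cast_zero]
  constructor
  · rintro h _ ⟨c, rfl⟩
    exact (key c).2 (h c)
  · intro h c
    exact (key c).1 (h _ ⟨c, rfl⟩)

end Pool.Agent.WeilUniform
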