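import Mathlib
import Pool.Agent.H94.Univ.Num

/-!
# Quasi-inverses of correspondences modulo numerical equivalence
-/

open CategoryTheory MonoidalCategory CartesianMonoidalCategory
open scoped TensorProduct

namespace Pool.Agent.WeilUniform

set_option linter.unusedSectionVars false

universe t v u w x y

variable {𝒱 : Type u} [Category.{v} 𝒱] [CartesianMonoidalCategory 𝒱]

variable {ι : Type t} {T : IntersectionTheory.{v, u, w} 𝒱} {K : ι → Type x} [∀ ℓ, Field (K ℓ)]
  [∀ ℓ, CharZero (K ℓ)] (W : ∀ ℓ, WeilCohomology.{v, u, w, x, y} T (K ℓ)) {X : 𝒱}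

namespace OpSystem

variable {V : ι → Type*} [∀ ℓ, AddCommGroup (V ℓ)] [∀ ℓ, Module (K ℓ) (V ℓ)]
  [∀ ℓ, FiniteDimensional (K ℓ) (V ℓ)] (S : OpSystem ι K V)

lemma str_add (ℓ : ι) (a b : Module.End (K ℓ) (V ℓ)) : S.str ℓ (a + b) = S.str ℓ a + S.str ℓ b := by
  rw [str, str, str, add_mul, tr_add]

lemma str_sub (ℓ : ι) (a b : Module.End (K ℓ) (V ℓ)) : S.str ℓ (a - b) = S.str ℓ a - S.str ℓ b := by
  rw [str, str, str, sub_mul, tr_sub]

lemma str_zero (ℓ : ι) : S.str ℓ 0 = 0 := by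
  rw [str, zero_mul, tr, map_zero]

lemma str_mul_comm (ℓ : ι) (a b : Module.End (K ℓ) (V ℓ)) (hb : Commute b (S.sgn ℓ)) :
    S.str ℓ (a * b) = S.str ℓ (b * a) := by
  rw [str, str, mul_assoc, hb.eq, ← mul_assoc, tr_mul_comm, ← mul_assoc]

end OpSystem

lemma act_smul_rat (ℓ : ι) (q : ℚ) (z : T.CH (X ⊗ X)) :
    (W ℓ).act (q • z) = (q : K ℓ) • (W ℓ).act z := by
  apply LinearMap.ext
  intro α
  have h1 : (W ℓ).cl (X ⊗ X) (q • z) = (q : K ℓ) • (W ℓ).cl (X ⊗ X) z := by
    have h2 : ((W ℓ).cl (X ⊗ X)).comp (algebraMap ℚ (T.CH (X ⊗ X))) =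
        (algebraMap (K ℓ) ((W ℓ).H (X ⊗ X))).comp (Rat.castHom (K ℓ)) := RingHom.ext_rat _ _
    rw [Algebra.smul_def, map_mul, Algebra.smul_def]
    congr 1
    exact DFunLike.congr_fun h2 q
  rw [LinearMap.smul_apply, WeilCohomology.act_apply, WeilCohomology.act_apply, h1, smul_mul_assoc,
    map_smul]

include W in
/-- **Jannsen's theorem**, in the form of the existence of quasi-inverses modulo numerical
equivalence. -/
theorem exists_num_quasi_inverse (ℓ : ι) {m : ℤ} {U : T.CH (X ⊗ X)}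
    (hU : U ∈ T.gr (X ⊗ X) (T.dim X + m)) :
    ∃ z ∈ T.gr (X ⊗ X) (T.dim X - m), T.NumTriv (T.comp (T.comp U z) U - U) := by
  set S := system W X with hS
  have hn : S.n = T.dim X := rfl
  obtain ⟨v, ⟨z', rfl⟩, hv⟩ := Pool.Agent.H94.Univ.exists_quasi_inverse (actSubring W X ℓ)
    (S.sgn ℓ) (by rintro _ ⟨z, rfl⟩; exact act_comm_sgn W ℓ z)
    (by rintro _ ⟨z, rfl⟩ q; exact ⟨q • z, act_smul_rat W ℓ q z⟩)
    (by
      rintro _ ⟨z, rfl⟩
      obtain ⟨q, hq⟩ := T.point.2 (T.push (toUnit X) (T.pull (lift (𝟙 X) (𝟙 X)) z))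
      exact ⟨q, str_act_eq W ℓ z q hq.symm⟩)
    (u := (W ℓ).act U) ⟨U, rfl⟩
  set z : T.CH (X ⊗ X) := GradedAlgebra.proj (T.gr (X ⊗ X)) (T.dim X - m) z' with hz
  have hzmem : z ∈ T.gr (X ⊗ X) (T.dim X - m) := by
    rw [hz, GradedAlgebra.proj_apply]
    exact SetLike.coe_mem _
  refine ⟨z, hzmem, ?_⟩
  rw [numTriv_iff_str W ℓ]
  have hUC : actFamily W X U ∈ S.C m := by
    have := act_mem_C W hU
    rwa [show (T.dim X : ℤ) + m - T.dim X = m by ring] at this
  have hzC : actFamily W X z ∈ S.C (-m) := by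
    have := act_mem_C W hzmem
    rwa [show (T.dim X : ℤ) - m - T.dim X = -m by ring] at this
  have hw : (W ℓ).act (T.comp (T.comp U z) U - U) =
      (W ℓ).act U * (W ℓ).act z * (W ℓ).act U - (W ℓ).act U := by
    rw [act_sub' W, (W ℓ).act_comp, (W ℓ).act_comp]
    rfl
  rw [hw]
  rintro _ ⟨c, rfl⟩
  refine corr_ind (P := fun c => S.str ℓ (((W ℓ).act U * (W ℓ).act z * (W ℓ).act U - (W ℓ).act U) *
    (W ℓ).act c) = 0) ?_ ?_ ?_ c
  · rw [act_zero' W, mul_zero, S.str_zero]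
  · intro r c hc
    have hcC := act_mem_C W hc
    by_cases hr : r = T.dim X - m
    · -- the relevant degree
      have h1 : S.str ℓ (((W ℓ).act U * (W ℓ).act z' * (W ℓ).act U - (W ℓ).act U) *
          (W ℓ).act c) = 0 := hv _ ⟨c, rfl⟩
      have h2 : S.str ℓ ((W ℓ).act U * (W ℓ).act z * (W ℓ).act U * (W ℓ).act c) =
          S.str ℓ ((W ℓ).act U * (W ℓ).act z' * (W ℓ).act U * (W ℓ).act c) := by
        rw [hz]
        refine corr_ind (P := fun y => S.str ℓ ((W ℓ).act U *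
          (W ℓ).act (GradedAlgebra.proj (T.gr (X ⊗ X)) (T.dim X - m) y) * (W ℓ).act U *
          (W ℓ).act c) = S.str ℓ ((W ℓ).act U * (W ℓ).act y * (W ℓ).act U * (W ℓ).act c))
          ?_ ?_ ?_ z'
        · rw [map_zero]
        · intro k y hy
          by_cases hk : k = T.dim X - m
          · subst hk
            rw [GradedAlgebra.proj_apply, DirectSum.decompose_of_mem_same _ hy]
          · rw [GradedAlgebra.proj_apply, DirectSum.decompose_of_mem_ne _ hy hk, act_zero' W,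
              mul_zero, zero_mul, zero_mul, S.str_zero]
            have hyC := act_mem_C W hy
            have h3 := S.mul_mem (S.mul_mem (S.mul_mem hUC hyC) hUC) hcC
            exact (S.str_eq_zero (by omega) h3 ℓ).symm
        · intro y y' hy hy'
          rw [map_add, act_add' W, act_add' W, mul_add, mul_add, add_mul, add_mul, add_mul, add_mul,
            S.str_add, S.str_add, hy, hy']
      rw [sub_mul, S.str_sub] at h1 ⊢
      rw [h2]
      exact h1
    · have h3 := S.mul_mem (S.mul_mem (S.mul_mem hUC hzC) hUC) hcC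
      have h4 := S.mul_mem hUC hcC
      rw [sub_mul, S.str_sub]
      have h5 : S.str ℓ ((W ℓ).act U * (W ℓ).act z * (W ℓ).act U * (W ℓ).act c) = 0 :=
        S.str_eq_zero (by omega) h3 ℓ
      have h6 : S.str ℓ ((W ℓ).act U * (W ℓ).act c) = 0 := S.str_eq_zero (by omega) h4 ℓ
      rw [h5, h6, sub_zero]
  · intro c c' hc hc'
    rw [act_add' W, mul_add, S.str_add, hc, hc', add_zero]

end Pool.Agent.WeilUniform
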