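import Mathlib
import Pool.Agent.H94.Univ.Quasi

/-!
# A universal Lefschetz inverse
-/

open CategoryTheory MonoidalCategory CartesianMonoidalCategory
open scoped TensorProduct

namespace Pool.Agent.WeilUniform

set_option linter.unusedSectionVars false

universe t v u w x y

variable {𝒱 : Type u} [Category.{v} 𝒱] [CartesianMonoidalCategory 𝒱]

namespace IntersectionTheory

variable (T : IntersectionTheory.{v, u, w} 𝒱) {X : 𝒱}

/-- the correspondence `pr₁^*(h^m) · v`, inducing `L^m ∘ v^*` -/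
noncomputable def lef (h : T.CH X) (m : ℕ) (v : T.CH (X ⊗ X)) : T.CH (X ⊗ X) :=
  T.pull (fst X X) (h ^ m) * v

/-- the correspondence `v · pr₂^*(h^m)`, inducing `v^* ∘ L^m` -/
noncomputable def rig (h : T.CH X) (m : ℕ) (v : T.CH (X ⊗ X)) : T.CH (X ⊗ X) :=
  v * T.pull (snd X X) (h ^ m)

/-- the iterated corrections `∑_{j < k} (1 - z L^m)^j z` of the correspondence `z` -/
noncomputable def corr (h : T.CH X) (m : ℕ) (z : T.CH (X ⊗ X)) : ℕ → T.CH (X ⊗ X)
  | 0 => 0
  | k + 1 => z + corr h m z k - T.comp z (T.lef h m (corr h m z k))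

lemma pow_mem_gr {h : T.CH X} (hh : h ∈ T.gr X 1) (m : ℕ) : h ^ m ∈ T.gr X m := by
  have := SetLike.pow_mem_graded m hh
  rwa [nsmul_eq_mul, mul_one] at this

lemma corr_mem {h : T.CH X} (hh : h ∈ T.gr X 1) (m : ℕ) {z : T.CH (X ⊗ X)}
    (hz : z ∈ T.gr (X ⊗ X) (T.dim X - m)) (k : ℕ) :
    T.corr h m z k ∈ T.gr (X ⊗ X) (T.dim X - m) := by
  induction k with
  | zero => exact zero_mem _
  | succ k ih =>
    refine sub_mem (add_mem hz ih) ?_
    have h1 := SetLike.mul_mem_graded (T.pull_mem (fst X X) (T.pow_mem_gr hh m)) ih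
    have h2 := T.comp_mem hz h1
    rwa [show (T.dim X : ℤ) - m + (m + (T.dim X - m)) - T.dim X = T.dim X - m by ring] at h2

end IntersectionTheory

namespace WeilCohomology

variable {T : IntersectionTheory.{v, u, w} 𝒱} {K : Type x} [Field K]
  (W : WeilCohomology.{v, u, w, x, y} T K) {X : 𝒱}

/-- the Lefschetz operator as an endomorphism -/
noncomputable abbrev lop (h : T.CH X) (m : ℕ) : Module.End K (W.H X) := W.lefschetz h m

lemma act_lef (h : T.CH X) (m : ℕ) (v : T.CH (X ⊗ X)) :
    (W.act (T.lef h m v) : Module.End K (W.H X)) = W.lop h m * W.act v := by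
  ext α
  rw [IntersectionTheory.lef, act_apply, map_mul (W.cl _), W.cl_pull, mul_assoc, W.push_pull_cl,
    W.cl_comm, map_pow]
  rfl

lemma act_rig (h : T.CH X) (m : ℕ) (v : T.CH (X ⊗ X)) :
    (W.act (T.rig h m v) : Module.End K (W.H X)) = W.act v * W.lop h m := by
  ext α
  rw [IntersectionTheory.rig, act_apply, map_mul (W.cl _), W.cl_pull, mul_assoc, ← map_mul,
    W.cl_comm X (h ^ m) α, map_pow]
  rfl

lemma act_diag_pow (h : T.CH X) (m : ℕ) :
    (W.act (T.push (lift (𝟙 X) (𝟙 X)) (h ^ m)) : Module.End K (W.H X)) = W.lop h m := by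
  ext α
  rw [W.act_diag, W.cl_comm, map_pow]
  rfl

/-- `L^{n-i}` maps degree `i` to degree `2n-i` -/
lemma lefschetz_mem {h : T.CH X} (hh : h ∈ T.gr X 1) {i : ℕ} (hi : i ≤ T.dim X) {α : W.H X}
    (hα : α ∈ W.gr X i) : W.lefschetz h (T.dim X - i) α ∈ W.gr X (2 * T.dim X - i) := by
  have h1 := SetLike.mul_mem_graded hα (W.cl_mem (T.pow_mem_gr hh (T.dim X - i)))
  rw [map_pow, show (i : ℤ) + 2 * ((T.dim X - i : ℕ) : ℤ) = 2 * T.dim X - i by omega] at h1
  exact h1

/-- A left inverse to `L^{n-i}` on degree `i` is an inverse. -/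
lemma isLefschetzInverse_of_left {h : T.CH X} (hh : h ∈ T.gr X 1) {i : ℕ} (hi : i ≤ T.dim X)
    {z : T.CH (X ⊗ X)} (hz : ∀ α ∈ W.gr X i, W.act z (W.lefschetz h (T.dim X - i) α) = α) :
    W.IsLefschetzInverse h i z := by
  refine ⟨hz, fun β hβ => ?_⟩
  let f : W.gr X i →ₗ[K] W.gr X (2 * T.dim X - i) :=
    (W.lefschetz h (T.dim X - i)).restrict fun α hα => W.lefschetz_mem hh hi hα
  have hf : Function.Injective f := by
    intro α α' hαα'
    apply Subtype.ext
    rw [← hz _ α.2, ← hz _ α'.2]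
    congr 1
    exact congrArg Subtype.val hαα'
  have hs : Function.Surjective f :=
    (LinearMap.injective_iff_surjective_of_finrank_eq_finrank (W.finrank_symm i)).1 hf
  obtain ⟨α, hα⟩ := hs ⟨β, hβ⟩
  have h1 : W.lefschetz h (T.dim X - i) (α : W.H X) = β := congrArg Subtype.val hα
  rw [← h1, hz _ α.2]

/-- The correspondence `p` induces a projector of the cohomology of `X` which is the identity on the
part of degree `i` and zero on the parts of degree `j ≢ i` modulo `2`. -/
def IsSignProjector (i : ℕ) (p : T.CH (X ⊗ X)) : Prop :=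
  (∀ α : W.H X, W.act p (W.act p α) = W.act p α) ∧ (∀ α ∈ W.gr X i, W.act p α = α) ∧
    ∀ j : ℤ, Odd (j - i) → ∀ α ∈ W.gr X j, W.act p α = 0

end WeilCohomology

section one

variable {T : IntersectionTheory.{v, u, w} 𝒱} {K : Type x} [Field K] [CharZero K]
  (W : WeilCohomology.{v, u, w, x, y} T K) {X : 𝒱}

/-- the operators given by correspondences, for one theory -/
noncomputable def actRing (X : 𝒱) : Subring (Module.End K (W.H X)) :=
  actSubring (fun _ : Unit => W) X ()

lemma act_mem_actRing (z : T.CH (X ⊗ X)) : (W.act z : Module.End K (W.H X)) ∈ actRing W X :=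
  ⟨z, rfl⟩

/-- the supertrace, for one theory -/
noncomputable def str1 (a : Module.End K (W.H X)) : K := (system (fun _ : Unit => W) X).str () a

/-- the radical of the supertrace form -/
def Rad (a : Module.End K (W.H X)) : Prop := ∀ c ∈ actRing W X, str1 W (a * c) = 0

lemma numTriv_iff_rad (w : T.CH (X ⊗ X)) : T.NumTriv w ↔ Rad W (W.act w) :=
  numTriv_iff_str (fun _ : Unit => W) () w

lemma Rad.mul_right {a : Module.End K (W.H X)} (ha : Rad W a) {b : Module.End K (W.H X)}
    (hb : b ∈ actRing W X) : Rad W (a * b) := by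
  intro c hc
  rw [mul_assoc]
  exact ha _ ((actRing W X).mul_mem hb hc)

lemma Rad.mul_left {a : Module.End K (W.H X)} (ha : Rad W a) (ha' : a ∈ actRing W X)
    {b : Module.End K (W.H X)} (hb : b ∈ actRing W X) : Rad W (b * a) := by
  intro c hc
  have h1 : Commute (a * c) ((system (fun _ : Unit => W) X).sgn ()) := by
    obtain ⟨z, hz⟩ := (actRing W X).mul_mem ha' hc
    rw [← hz]
    exact act_comm_sgn (fun _ : Unit => W) () z
  rw [mul_assoc, str1, (system (fun _ : Unit => W) X).str_mul_comm () _ _ h1, mul_assoc]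
  exact ha _ ((actRing W X).mul_mem hc hb)

/-- multiplying by the sign operator an operator which vanishes in degrees `j ≢ i` modulo `2` -/
lemma mul_sgn_of_parity {κ : Module.End K (W.H X)} (i : ℕ)
    (hκp : ∀ j : ℤ, Odd (j - i) → κ * W.proj X j = 0) :
    κ * (system (fun _ : Unit => W) X).sgn () = ((-1 : K) ^ i) • κ := by
  apply (system (fun _ : Unit => W) X).ext_p (ℓ := ())
  intro j
  rw [mul_assoc, OpSystem.sgn_mul_p, mul_smul_comm, smul_mul_assoc]
  rcases Int.even_or_odd (j - i) with hj | hj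
  · congr 1
    rcases Int.even_or_odd j with h1 | h1
    · have h2 : Even (i : ℤ) := (Int.even_sub.1 hj).1 h1
      rw [(Int.natAbs_even.2 h1).neg_one_pow, Even.neg_one_pow ((Int.even_coe_nat i).1 h2)]
    · have h2 : Odd (i : ℤ) := by
        rw [← Int.not_even_iff_odd] at h1 ⊢
        exact fun h => h1 ((Int.even_sub.1 hj).2 h)
      rw [(Int.natAbs_odd.2 h1).neg_one_pow, Odd.neg_one_pow ((Int.odd_coe_nat i).1 h2)]
  · have h1 : κ * (system (fun _ : Unit => W) X).p () j = 0 := hκp j hj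
    rw [h1, smul_zero, smul_zero]

/-- an element of the radical which vanishes in degrees `j ≢ i` modulo `2` is nilpotent -/
lemma Rad.isNilpotent {κ : Module.End K (W.H X)} (hκ : Rad W κ) (hmem : κ ∈ actRing W X) (i : ℕ)
    (hκp : ∀ j : ℤ, Odd (j - i) → κ * W.proj X j = 0) : IsNilpotent κ := by
  set S := system (fun _ : Unit => W) X with hS
  have hκs : κ * S.sgn () = ((-1 : K) ^ i) • κ := mul_sgn_of_parity W i hκp
  apply isNilpotent_of_trace_pow
  intro k hk
  obtain ⟨q, rfl⟩ : ∃ q, k = q + 1 := ⟨k - 1, by omega⟩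
  have h1 : S.str () (κ * κ ^ q) = 0 := hκ (κ ^ q) ((actRing W X).pow_mem hmem q)
  rw [← pow_succ', OpSystem.str, pow_succ, mul_assoc, hκs, mul_smul_comm, ← pow_succ,
    OpSystem.tr, map_smul, smul_eq_mul] at h1
  rcases mul_eq_zero.1 h1 with h2 | h2
  · exact absurd h2 (pow_ne_zero _ (neg_ne_zero.2 one_ne_zero))
  · exact h2

lemma one_sub_act_corr (h : T.CH X) (m : ℕ) (z : T.CH (X ⊗ X)) (k : ℕ) :
    1 - W.act (T.corr h m z k) * W.lop h m = (1 - W.act z * W.lop h m) ^ k := by
  induction k with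
  | zero =>
    have h0 : (W.act (0 : T.CH (X ⊗ X)) : Module.End K (W.H X)) = 0 :=
      act_zero' (fun _ : Unit => W) ()
    rw [IntersectionTheory.corr, h0, zero_mul, sub_zero, pow_zero]
  | succ k ih =>
    have h1 : (W.act (T.corr h m z (k + 1)) : Module.End K (W.H X)) =
        W.act z + W.act (T.corr h m z k) - W.act z * (W.lop h m * W.act (T.corr h m z k)) := by
      rw [IntersectionTheory.corr]
      have h2 := act_sub' (fun _ : Unit => W) () (z + T.corr h m z k)
        (T.comp z (T.lef h m (T.corr h m z k)))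
      have h3 := act_add' (fun _ : Unit => W) () z (T.corr h m z k)
      have h4 : (W.act (T.comp z (T.lef h m (T.corr h m z k))) : Module.End K (W.H X)) =
        W.act z * W.act (T.lef h m (T.corr h m z k)) := W.act_comp _ _
      rw [W.act_lef] at h4
      calc (W.act (z + T.corr h m z k - T.comp z (T.lef h m (T.corr h m z k))) :
          Module.End K (W.H X)) = W.act (z + T.corr h m z k) -
            W.act (T.comp z (T.lef h m (T.corr h m z k))) := h2
        _ = _ := by rw [h4]; congr 1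
    rw [pow_succ', ← ih, h1]
    simp only [mul_sub, sub_mul, add_mul, mul_one, one_mul, mul_assoc]
    abel

/-- the correction of a quasi-inverse is a quasi-inverse -/
lemma numTriv_corr (h : T.CH X) (m : ℕ) (z : T.CH (X ⊗ X))
    (hz : Rad W (W.lop h m * W.act z * W.lop h m - W.lop h m)) (k : ℕ) :
    T.NumTriv (T.rig h m (T.lef h m (T.corr h m z (k + 1))) -
      T.push (lift (𝟙 X) (𝟙 X)) (h ^ m)) := by
  rw [numTriv_iff_rad W]
  have h1 : (W.act (T.rig h m (T.lef h m (T.corr h m z (k + 1))) -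
      T.push (lift (𝟙 X) (𝟙 X)) (h ^ m)) : Module.End K (W.H X)) =
      (W.lop h m * W.act z * W.lop h m - W.lop h m) * (1 - W.act z * W.lop h m) ^ k := by
    have h2 := act_sub' (fun _ : Unit => W) () (T.rig h m (T.lef h m (T.corr h m z (k + 1))))
      (T.push (lift (𝟙 X) (𝟙 X)) (h ^ m))
    have h3 := W.act_rig h m (T.lef h m (T.corr h m z (k + 1)))
    rw [W.act_lef] at h3
    calc (W.act (T.rig h m (T.lef h m (T.corr h m z (k + 1))) -
          T.push (lift (𝟙 X) (𝟙 X)) (h ^ m)) : Module.End K (W.H X)) =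
          W.act (T.rig h m (T.lef h m (T.corr h m z (k + 1)))) -
            W.act (T.push (lift (𝟙 X) (𝟙 X)) (h ^ m)) := h2
      _ = W.lop h m * W.act (T.corr h m z (k + 1)) * W.lop h m - W.lop h m := by
          rw [h3, W.act_diag_pow]
      _ = - (W.lop h m * (1 - W.act (T.corr h m z (k + 1)) * W.lop h m)) := by
          simp only [mul_sub, mul_one, mul_assoc]
          abel
      _ = _ := by
          rw [one_sub_act_corr, pow_succ']
          simp only [mul_sub, sub_mul, one_mul, mul_assoc]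
          abel
  rw [h1]
  have hz1 : (1 - W.act z * W.lop h m : Module.End K (W.H X)) ∈ actRing W X := by
    rw [← W.act_rig]
    exact (actRing W X).sub_mem (actRing W X).one_mem ⟨_, rfl⟩
  exact hz.mul_right W ((actRing W X).pow_mem hz1 k)

/-- the key estimate: in a theory with algebraic sign projector and algebraic inverse, a
quasi-inverse modulo numerical equivalence is a unipotent inverse -/
lemma nilpotent_of_algebraic {h : T.CH X} (hh : h ∈ T.gr X 1) {i : ℕ} (hi : i ≤ T.dim X)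
    {z : T.CH (X ⊗ X)} (hz : z ∈ T.gr (X ⊗ X) i)
    (hq : Rad W (W.lop h (T.dim X - i) * W.act z * W.lop h (T.dim X - i) - W.lop h (T.dim X - i)))
    {π z' : T.CH (X ⊗ X)} (hπ : W.IsSignProjector i π)
    (hz' : ∀ α ∈ W.gr X i, W.act z' (W.lefschetz h (T.dim X - i) α) = α) :
    IsNilpotent ((1 - W.act z * W.lop h (T.dim X - i)) * W.proj X i) := by
  set L := W.lop h (T.dim X - i) with hL
  have hLmem : L ∈ actRing W X := ⟨_, W.act_diag_pow h (T.dim X - i)⟩
  set w := L * W.act z * L - L with hw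
  have hwmem : w ∈ actRing W X :=
    (actRing W X).sub_mem ((actRing W X).mul_mem ((actRing W X).mul_mem hLmem ⟨_, rfl⟩) hLmem) hLmem
  set κ : Module.End K (W.H X) := W.act z' * (w * W.act π) with hκ
  have hwπ : w * W.act π ∈ actRing W X := (actRing W X).mul_mem hwmem ⟨_, rfl⟩
  have hκmem : κ ∈ actRing W X := (actRing W X).mul_mem ⟨_, rfl⟩ hwπ
  have hκr : Rad W κ := (hq.mul_right W (b := W.act π) ⟨_, rfl⟩).mul_left W hwπ ⟨_, rfl⟩
  have hπp : ∀ j : ℤ, Odd (j - i) → W.act π * W.proj X j = 0 := by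
    intro j hj
    apply LinearMap.ext
    intro β
    exact hπ.2.2 j hj _ (W.proj_mem X j β)
  have hκp : ∀ j : ℤ, Odd (j - i) → κ * W.proj X j = 0 := by
    intro j hj
    rw [hκ, mul_assoc, mul_assoc, hπp j hj, mul_zero, mul_zero]
  obtain ⟨k, hk⟩ := hκr.isNilpotent W hκmem i hκp
  -- `κ` is `z L - 1` on degree `i`
  have hzL : ∀ α ∈ W.gr X i, W.act z (L α) ∈ W.gr X i := by
    intro α hα
    have h1 := W.lefschetz_mem hh hi hα
    have h2 : z ∈ T.gr (X ⊗ X) ((T.dim X : ℤ) + (i - T.dim X)) := by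
      rwa [show (T.dim X : ℤ) + (i - T.dim X) = i by ring]
    have h3 := W.act_mem h2 h1
    rwa [show 2 * (T.dim X : ℤ) - i + 2 * (i - T.dim X) = i by ring] at h3
  set A : Module.End K (W.H X) := (1 - W.act z * L) * W.proj X i with hA
  have hκA : ∀ α ∈ W.gr X i, A α = - κ α ∧ A α ∈ W.gr X i := by
    intro α hα
    have h1 : W.proj X i α = α := W.proj_same hα
    have h2 : W.act π α = α := hπ.2.1 α hα
    have h3 : W.act z' (L α) = α := hz' α hα
    have h4 : W.act z' (L (W.act z (L α))) = W.act z (L α) := hz' _ (hzL α hα)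
    have h5 : A α = α - W.act z (L α) := by
      change W.proj X i α - W.act z (L (W.proj X i α)) = _
      rw [h1]
    refine ⟨?_, ?_⟩
    · rw [h5]
      change _ = - (W.act z' (L (W.act z (L (W.act π α))) - L (W.act π α)))
      rw [h2, map_sub, h3, h4, neg_sub]
    · rw [h5]
      exact sub_mem hα (hzL α hα)
  have hpow : ∀ l : ℕ, ∀ α ∈ W.gr X i, (A ^ l) α = (-1 : K) ^ l • (κ ^ l) α ∧
      (A ^ l) α ∈ W.gr X i := by
    intro l
    induction l with
    | zero =>
      intro α hα
      refine ⟨?_, hα⟩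
      rw [pow_zero, pow_zero, pow_zero, one_smul]
    | succ l ih =>
      intro α hα
      obtain ⟨h1, h2⟩ := ih α hα
      obtain ⟨h3, h4⟩ := hκA _ h2
      have e1 : (A ^ (l + 1)) α = A ((A ^ l) α) := by rw [pow_succ']; rfl
      have e2 : (κ ^ (l + 1)) α = κ ((κ ^ l) α) := by rw [pow_succ']; rfl
      rw [e1]
      refine ⟨?_, h4⟩
      rw [h3, h1, map_smul, e2, pow_succ, mul_smul, neg_one_smul, smul_neg]
  refine ⟨k + 1, ?_⟩
  apply LinearMap.ext
  intro β
  have hβ : W.proj X i β ∈ W.gr X i := W.proj_mem X i β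
  have h1 : A β = A (W.proj X i β) := by
    change (1 - W.act z * L) (W.proj X i β) = (1 - W.act z * L) (W.proj X i (W.proj X i β))
    rw [W.proj_same hβ]
  have h2 : (A ^ (k + 1)) β = (A ^ k) (A (W.proj X i β)) := by
    rw [← h1, pow_succ]; rfl
  rw [h2, (hpow k _ (hκA _ hβ).2).1, hk, LinearMap.zero_apply, smul_zero, LinearMap.zero_apply]

/-- If `(1 - z L^{n-i})^{N+1}` vanishes on `H^i`, the correction of `z` of order `N + 1` is an
inverse. -/
lemma inverse_of_pow {h : T.CH X} (hh : h ∈ T.gr X 1) {i : ℕ} (hi : i ≤ T.dim X)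
    {z : T.CH (X ⊗ X)} (hzL : ∀ α ∈ W.gr X i, W.act z (W.lop h (T.dim X - i) α) ∈ W.gr X i) {N : ℕ}
    (h0 : ((1 - W.act z * W.lop h (T.dim X - i)) * W.proj X i) ^ (N + 1) = 0) :
    W.IsLefschetzInverse h i (T.corr h (T.dim X - i) z (N + 1)) := by
  apply W.isLefschetzInverse_of_left hh hi
  intro α hα
  set L := W.lop h (T.dim X - i) with hL
  set A : Module.End K (W.H X) := (1 - W.act z * L) * W.proj X i with hA
  -- powers of `A` and of `1 - z L` agree on degree `i`
  have hpow : ∀ k : ℕ, ∀ β ∈ W.gr X i, (A ^ k) β = ((1 - W.act z * L) ^ k) β ∧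
      (A ^ k) β ∈ W.gr X i := by
    intro k
    induction k with
    | zero => intro β hβ; exact ⟨rfl, hβ⟩
    | succ k ih =>
      intro β hβ
      obtain ⟨h1, h2⟩ := ih β hβ
      have e1 : (A ^ (k + 1)) β = A ((A ^ k) β) := by rw [pow_succ']; rfl
      have e2 : ((1 - W.act z * L) ^ (k + 1)) β =
          (1 - W.act z * L) (((1 - W.act z * L) ^ k) β) := by rw [pow_succ']; rfl
      have h3 : A ((A ^ k) β) = (1 - W.act z * L) ((A ^ k) β) := by
        have h4 : A ((A ^ k) β) = (1 - W.act z * L) (W.proj X i ((A ^ k) β)) := rfl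
        rw [h4, W.proj_same h2]
      rw [e1, e2, ← h1, h3]
      exact ⟨rfl, sub_mem h2 (hzL _ h2)⟩
  have h1 := (hpow (N + 1) α hα).1
  rw [h0, ← one_sub_act_corr] at h1
  have h2 : α - W.act (T.corr h (T.dim X - i) z (N + 1)) (L α) = 0 := h1.symm
  exact (sub_eq_zero.1 h2).symm

/-- the power of a nilpotent operator on degree `i` -/
lemma pow_of_nilpotent {h : T.CH X} {i : ℕ} {z : T.CH (X ⊗ X)}
    (hzL : ∀ α ∈ W.gr X i, W.act z (W.lop h (T.dim X - i) α) ∈ W.gr X i)
    (hnil : IsNilpotent ((1 - W.act z * W.lop h (T.dim X - i)) * W.proj X i)) {N : ℕ}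
    (hN : Module.finrank K (W.gr X i) ≤ N) :
    ((1 - W.act z * W.lop h (T.dim X - i)) * W.proj X i) ^ (N + 1) = 0 := by
  have hPA : W.proj X i * ((1 - W.act z * W.lop h (T.dim X - i)) * W.proj X i) =
      (1 - W.act z * W.lop h (T.dim X - i)) * W.proj X i := by
    apply LinearMap.ext
    intro β
    have hβ : W.proj X i β ∈ W.gr X i := W.proj_mem X i β
    change W.proj X i (W.proj X i β - W.act z (W.lop h (T.dim X - i) (W.proj X i β))) =
      W.proj X i β - W.act z (W.lop h (T.dim X - i) (W.proj X i β))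
    exact W.proj_same (sub_mem hβ (hzL _ hβ))
  have hrange : LinearMap.range (W.proj X i) = W.gr X i := by
    apply le_antisymm
    · rintro _ ⟨a, rfl⟩
      exact W.proj_mem X i a
    · intro a ha
      exact ⟨a, W.proj_same ha⟩
  exact pow_succ_eq_zero_of_supported (P := W.proj X i) hPA hnil (N := N) (by
    rw [hrange]; exact hN)

/-- `z L^{n-i}` preserves degree `i` if `z` is of codimension `i` -/
lemma act_lop_mem {h : T.CH X} (hh : h ∈ T.gr X 1) {i : ℕ} (hi : i ≤ T.dim X)
    {z : T.CH (X ⊗ X)} (hz : z ∈ T.gr (X ⊗ X) i) :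
    ∀ α ∈ W.gr X i, W.act z (W.lop h (T.dim X - i) α) ∈ W.gr X i := by
  intro α hα
  have h1 := W.lefschetz_mem hh hi hα
  have h2 : z ∈ T.gr (X ⊗ X) ((T.dim X : ℤ) + (i - T.dim X)) := by
    rwa [show (T.dim X : ℤ) + (i - T.dim X) = i by ring]
  have h3 := W.act_mem h2 h1
  rwa [show 2 * (T.dim X : ℤ) - i + 2 * (i - T.dim X) = i by ring] at h3

/-- the case of numerically trivial cycles acting as zero -/
lemma zero_of_numerical {h : T.CH X} {i : ℕ} {z : T.CH (X ⊗ X)}
    (hzL : ∀ α ∈ W.gr X i, W.act z (W.lop h (T.dim X - i) α) ∈ W.gr X i)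
    (hq : ∀ α ∈ W.gr X i, (W.lop h (T.dim X - i) * W.act z * W.lop h (T.dim X - i)) α =
      W.lop h (T.dim X - i) α)
    (hinj : ∀ α ∈ W.gr X i, W.lefschetz h (T.dim X - i) α = 0 → α = 0) :
    (1 - W.act z * W.lop h (T.dim X - i)) * W.proj X i = 0 := by
  apply LinearMap.ext
  intro β
  have hβ : W.proj X i β ∈ W.gr X i := W.proj_mem X i β
  refine hinj _ (sub_mem hβ (hzL _ hβ)) ?_
  change W.lefschetz h (T.dim X - i) (W.proj X i β -
    W.act z (W.lop h (T.dim X - i) (W.proj X i β))) = 0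
  rw [map_sub, sub_eq_zero]
  exact (hq _ hβ).symm

end one

lemma act_quasi {T : IntersectionTheory.{v, u, w} 𝒱} {K : Type x} [Field K] [CharZero K]
    (W : WeilCohomology.{v, u, w, x, y} T K) {X : 𝒱} (h : T.CH X) (m : ℕ) (z : T.CH (X ⊗ X)) :
    (W.act (T.comp (T.comp (T.push (lift (𝟙 X) (𝟙 X)) (h ^ m)) z)
      (T.push (lift (𝟙 X) (𝟙 X)) (h ^ m)) - T.push (lift (𝟙 X) (𝟙 X)) (h ^ m)) :
        Module.End K (W.H X)) = W.lop h m * W.act z * W.lop h m - W.lop h m := by
  have h1 := act_sub' (fun _ : Unit => W) () (T.comp (T.comp (T.push (lift (𝟙 X) (𝟙 X)) (h ^ m))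
    z) (T.push (lift (𝟙 X) (𝟙 X)) (h ^ m))) (T.push (lift (𝟙 X) (𝟙 X)) (h ^ m))
  have h2 : (W.act (T.comp (T.comp (T.push (lift (𝟙 X) (𝟙 X)) (h ^ m)) z)
      (T.push (lift (𝟙 X) (𝟙 X)) (h ^ m))) : Module.End K (W.H X)) =
      W.act (T.push (lift (𝟙 X) (𝟙 X)) (h ^ m)) * W.act z *
        W.act (T.push (lift (𝟙 X) (𝟙 X)) (h ^ m)) := by
    rw [W.act_comp, W.act_comp]
    rfl
  rw [W.act_diag_pow] at h2
  refine h1.trans ?_
  rw [W.act_diag_pow]
  exact congrArg (fun a : Module.End K (W.H X) => a - W.lop h m) h2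

/-- If `P` commutes with `s`, `s ^ 2 = 1`, and all traces `tr (P ^ m s)`, `m ≥ 1`, have the same value
`c`, then `c` is the difference of two natural numbers bounded by the dimension. -/
lemma bounded_of_trace {K V : Type*} [Field K] [CharZero K] [AddCommGroup V] [Module K V]
    [FiniteDimensional K V] {P s : Module.End K V} (hPs : Commute P s) (hs : s * s = 1) (c : K)
    (hc : ∀ m : ℕ, 1 ≤ m → LinearMap.trace K V (P ^ m * s) = c) :
    ∃ a b : ℕ, a ≤ Module.finrank K V ∧ b ≤ Module.finrank K V ∧ c = a - b := by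
  obtain ⟨g, hg, hgn⟩ := Polynomial.exists_eq_pow_rootMultiplicity_mul_and_not_dvd P.charpoly
    P.charpoly_monic.ne_zero 1
  set k := P.charpoly.rootMultiplicity 1
  have hcop : IsCoprime (Polynomial.X - Polynomial.C (1 : K)) (Polynomial.X * g) := by
    refine IsCoprime.mul_right ?_ ?_
    · refine ⟨-1, 1, ?_⟩
      simp
    · exact (EuclideanDomain.dvd_or_coprime _ g
        (Polynomial.irreducible_X_sub_C (1 : K))).resolve_left hgn
  obtain ⟨a, b, hab⟩ : IsCoprime ((Polynomial.X - Polynomial.C (1 : K)) ^ (k + 1))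
    (Polynomial.X * g) := hcop.pow_left
  have hb1 : (b * g).eval 1 = 1 := by
    have h1 := congrArg (Polynomial.eval 1) hab
    simp only [Polynomial.eval_add, Polynomial.eval_mul, Polynomial.eval_pow, Polynomial.eval_sub,
      Polynomial.eval_X, Polynomial.eval_C, Polynomial.eval_one, sub_self] at h1
    rw [zero_pow (by omega), mul_zero, zero_add, one_mul] at h1
    rw [Polynomial.eval_mul, h1]
  -- the idempotent
  set e : Module.End K V := Polynomial.aeval P (Polynomial.X * (b * g)) with he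
  have hee : e * e = e := by
    have h1 : (Polynomial.X * (b * g)) * (Polynomial.X * (b * g)) = Polynomial.X * (b * g) -
        (a * (Polynomial.X - Polynomial.C (1 : K)) * Polynomial.X * b) * P.charpoly := by
      have h2 : Polynomial.X * (b * g) =
          1 - a * (Polynomial.X - Polynomial.C (1 : K)) ^ (k + 1) := by
        rw [← hab]; ring
      calc (Polynomial.X * (b * g)) * (Polynomial.X * (b * g)) =
            (Polynomial.X * (b * g)) * (1 - a * (Polynomial.X - Polynomial.C (1 : K)) ^ (k + 1)) := by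
              rw [← h2]
        _ = Polynomial.X * (b * g) - (a * (Polynomial.X - Polynomial.C (1 : K)) * Polynomial.X * b) *
              ((Polynomial.X - Polynomial.C (1 : K)) ^ k * g) := by ring
        _ = _ := by rw [← hg]
    rw [he, ← map_mul, h1, map_sub, map_mul _ _ P.charpoly, LinearMap.aeval_self_charpoly, mul_zero,
      sub_zero]
  have hes : Commute e s := by
    have h1 : ∀ f : Polynomial K, Commute (Polynomial.aeval P f) s := by
      intro f
      induction f using Polynomial.induction_on' with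
      | add p q hp hq => rw [map_add]; exact hp.add_left hq
      | monomial n x =>
        rw [← Polynomial.C_mul_X_pow_eq_monomial, map_mul, Polynomial.aeval_C, map_pow,
          Polynomial.aeval_X]
        exact (Algebra.commute_algebraMap_left x s).mul_left (hPs.pow_left n)
    exact h1 _
  have htr : LinearMap.trace K V (e * s) = c := by
    rw [he, trace_aeval_X_mul P s c hc, hb1, mul_one]
  -- the two halves
  have half : ∀ t : Module.End K V, t * t = 1 → Commute e t →
      ∃ a : ℕ, a ≤ Module.finrank K V ∧ LinearMap.trace K V (e * ((2 : K)⁻¹ • (1 + t))) = a := by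
    intro t ht het
    have h2 : (2 : K) ≠ 0 := two_ne_zero
    set r : Module.End K V := (2 : K)⁻¹ • (1 + t) with hr
    have hrr : r * r = r := by
      rw [hr, smul_mul_smul_comm]
      have h3 : (1 + t) * (1 + t) = (2 : K) • (1 + t) := by
        rw [mul_add, mul_one, add_mul, one_mul, ht, two_smul]
        abel
      rw [h3, smul_smul]
      congr 1
      field_simp
    have her : Commute e r := by
      rw [hr]
      exact ((Commute.one_right e).add_right het).smul_right _
    have h4 : (e * r) * (e * r) = e * r := by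
      calc (e * r) * (e * r) = e * (r * e) * r := by simp only [mul_assoc]
        _ = e * (e * r) * r := by rw [her.eq]
        _ = (e * e) * (r * r) := by simp only [mul_assoc]
        _ = e * r := by rw [hee, hrr]
    refine ⟨Module.finrank K (LinearMap.range (e * r)), Submodule.finrank_le _, trace_idem h4⟩
  obtain ⟨x, hx, hx'⟩ := half s hs hes
  obtain ⟨y, hy, hy'⟩ := half (-s) (by rw [neg_mul_neg]; exact hs) hes.neg_right
  refine ⟨x, y, hx, hy, ?_⟩
  rw [← hx', ← hy', ← map_sub, ← mul_sub, ← smul_sub, ← htr]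
  congr 2
  have h3 : (1 + s) - (1 + -s) = (2 : K) • s := by rw [two_smul]; abel
  rw [h3, smul_smul, inv_mul_cancel₀ (two_ne_zero), one_smul]

/-- iterated composition -/
noncomputable def IntersectionTheory.iter {X : 𝒱} (T : IntersectionTheory.{v, u, w} 𝒱)
    (π : T.CH (X ⊗ X)) : ℕ → T.CH (X ⊗ X)
  | 0 => π
  | k + 1 => T.comp π (T.iter π k)

lemma act_iter {T : IntersectionTheory.{v, u, w} 𝒱} {K : Type x} [Field K] [CharZero K]
    (W : WeilCohomology.{v, u, w, x, y} T K) {X : 𝒱} (π : T.CH (X ⊗ X)) (k : ℕ) :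
    (W.act (T.iter π k) : Module.End K (W.H X)) = W.act π ^ (k + 1) := by
  induction k with
  | zero => rw [zero_add, pow_one]; rfl
  | succ k ih =>
    rw [pow_succ', ← ih]
    exact W.act_comp π (T.iter π k)

/-- the square of the sign operator -/
lemma OpSystem.sgn_sq {ι : Type t} {K : ι → Type x} [∀ ℓ, Field (K ℓ)] [∀ ℓ, CharZero (K ℓ)]
    {V : ι → Type*} [∀ ℓ, AddCommGroup (V ℓ)] [∀ ℓ, Module (K ℓ) (V ℓ)]
    [∀ ℓ, FiniteDimensional (K ℓ) (V ℓ)] (S : OpSystem ι K V) (ℓ : ι) :
    S.sgn ℓ * S.sgn ℓ = 1 := by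
  apply S.ext_p
  intro k
  rw [mul_assoc, S.sgn_mul_p, mul_smul_comm, S.sgn_mul_p, smul_smul, ← pow_add, one_mul]
  rw [Even.neg_one_pow ⟨k.natAbs, rfl⟩, one_smul]

universe x₀ y₀

/-- The Betti number `b_i` of a theory with algebraic sign projector is bounded by the
dimension of the cohomology of another theory. -/
lemma finrank_le_of_projector {T : IntersectionTheory.{v, u, w} 𝒱} {K₀ : Type x₀} [Field K₀]
    [CharZero K₀] (W₀ : WeilCohomology.{v, u, w, x₀, y₀} T K₀) {K : Type x} [Field K] [CharZero K]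
    (W : WeilCohomology.{v, u, w, x, y} T K) {X : 𝒱} {i : ℕ} (π : T.CH (X ⊗ X))
    (hπ : W.IsSignProjector i π) :
    Module.finrank K (W.gr X i) ≤ Module.finrank K₀ (W₀.H X) := by
  set P : Module.End K (W.H X) := W.act π with hP
  have hidem : IsIdempotentElem P := LinearMap.ext hπ.1
  have hPp : ∀ j : ℤ, Odd (j - i) → P * W.proj X j = 0 := by
    intro j hj
    apply LinearMap.ext
    intro β
    exact hπ.2.2 j hj _ (W.proj_mem X j β)
  set r := Module.finrank K (LinearMap.range P) with hr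
  have hir : Module.finrank K (W.gr X i) ≤ r := by
    apply Submodule.finrank_mono
    intro α hα
    exact ⟨α, hπ.2.1 α hα⟩
  -- the common value of the supertraces
  obtain ⟨q, hqK, hqk⟩ : ∃ q : ℚ, (q : K) = (-1) ^ i * (r : K) ∧
      ∀ k : ℕ, str1 W₀ (W₀.act π ^ (k + 1)) = q := by
    have hval : ∀ k : ℕ, str1 W (W.act (T.iter π k)) = (-1) ^ i * (r : K) := by
      intro k
      rw [act_iter, ← hP, hidem.pow_succ_eq, str1, OpSystem.str, mul_sgn_of_parity W i hPp,
        OpSystem.tr, map_smul, trace_idem hidem, smul_eq_mul]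
    obtain ⟨q, hq⟩ := T.point.2 (T.push (toUnit X) (T.pull (lift (𝟙 X) (𝟙 X)) (T.iter π 0)))
    have h0 : (q : K) = (-1) ^ i * (r : K) := by
      rw [← hval 0]
      exact (str_act_eq (fun _ : Unit => W) () (T.iter π 0) q hq.symm).symm
    refine ⟨q, h0, fun k => ?_⟩
    obtain ⟨q', hq'⟩ := T.point.2 (T.push (toUnit X) (T.pull (lift (𝟙 X) (𝟙 X)) (T.iter π k)))
    have h1 : (q' : K) = (-1) ^ i * (r : K) := by
      rw [← hval k]
      exact (str_act_eq (fun _ : Unit => W) () (T.iter π k) q' hq'.symm).symm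
    have h2 : q' = q := by
      have h3 : (q' : K) = (q : K) := by rw [h0, h1]
      exact_mod_cast h3
    rw [← act_iter, ← h2]
    exact str_act_eq (fun _ : Unit => W₀) () (T.iter π k) q' hq'.symm
  obtain ⟨a, b, ha, hb, hab⟩ := bounded_of_trace (K := K₀) (V := W₀.H X) (P := W₀.act π)
    (s := (system (fun _ : Unit => W₀) X).sgn ()) (act_comm_sgn (fun _ : Unit => W₀) () π)
    (OpSystem.sgn_sq _ _) (q : K₀) (by
      intro m hm
      obtain ⟨k, rfl⟩ : ∃ k, m = k + 1 := ⟨m - 1, by omega⟩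
      exact hqk k)
  have h1 : q = a - b := by exact_mod_cast hab
  have h2 : q = (-1) ^ i * (r : ℚ) := by
    have h3 : (q : K) = (((-1) ^ i * (r : ℚ) : ℚ) : K) := by
      rw [hqK]; push_cast; ring
    exact_mod_cast h3
  have h3 : (r : ℚ) = |q| := by
    rw [h2, abs_mul, abs_pow, abs_neg, abs_one, one_pow, one_mul, Nat.abs_cast]
  have h4 : |q| ≤ (Module.finrank K₀ (W₀.H X) : ℚ) := by
    rw [h1, abs_le]
    have ha' : (a : ℚ) ≤ Module.finrank K₀ (W₀.H X) := by exact_mod_cast ha
    have hb' : (b : ℚ) ≤ Module.finrank K₀ (W₀.H X) := by exact_mod_cast hb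
    have ha0 : (0 : ℚ) ≤ a := Nat.cast_nonneg a
    have hb0 : (0 : ℚ) ≤ b := Nat.cast_nonneg b
    constructor <;> linarith
  rw [← h3] at h4
  exact hir.trans (by exact_mod_cast h4)

/-- **A universal Lefschetz inverse.** -/
theorem exists_universal {T : IntersectionTheory.{v, u, w} 𝒱} {K₀ : Type x₀} [Field K₀]
    [CharZero K₀] (W₀ : WeilCohomology.{v, u, w, x₀, y₀} T K₀) {X : 𝒱} {h : T.CH X}
    (hh : h ∈ T.gr X 1) {i : ℕ} (hi : i ≤ T.dim X) :
    ∃ z, z ∈ T.gr (X ⊗ X) i ∧
      T.NumTriv (T.rig h (T.dim X - i) (T.lef h (T.dim X - i) z) -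
        T.push (lift (𝟙 X) (𝟙 X)) (h ^ (T.dim X - i))) ∧
      ∀ (K : Type x) [Field K] [CharZero K] (W : WeilCohomology.{v, u, w, x, y} T K),
        (((∃ p : T.CH (X ⊗ X), W.IsSignProjector i p) ∧
            ∃ z' : T.CH (X ⊗ X), W.IsLefschetzInverse h i z') ∨
          ((∀ α ∈ W.gr X i, W.lefschetz h (T.dim X - i) α = 0 → α = 0) ∧
            ∀ w ∈ T.gr (X ⊗ X) (2 * T.dim X - i), T.NumTriv w →
              ∀ α ∈ W.gr X i, W.act w α = 0)) →
        W.IsLefschetzInverse h i z := by
  set m := T.dim X - i with hm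
  set N := Module.finrank K₀ (W₀.H X) with hNdef
  have hmi : (m : ℤ) = T.dim X - i := by omega
  have hU : T.push (lift (𝟙 X) (𝟙 X)) (h ^ m) ∈ T.gr (X ⊗ X) (T.dim X + m) :=
    T.diag_mem (T.pow_mem_gr hh m)
  obtain ⟨z₀, hz₀, hnum⟩ := exists_num_quasi_inverse (fun _ : Unit => W₀) () hU
  have hz₀' : z₀ ∈ T.gr (X ⊗ X) i := by
    rwa [show (T.dim X : ℤ) - m = i by omega] at hz₀
  refine ⟨T.corr h m z₀ (N + 1), ?_, ?_, ?_⟩
  · have h1 := T.corr_mem hh m hz₀ (N + 1)
    rwa [show (T.dim X : ℤ) - m = i by omega] at h1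
  · refine numTriv_corr W₀ h m z₀ ?_ N
    rw [← act_quasi W₀, ← numTriv_iff_rad]
    exact hnum
  · intro K _ _ W hW
    have hzL := act_lop_mem W hh hi hz₀'
    refine inverse_of_pow W hh hi hzL ?_
    rcases hW with ⟨⟨π, hπ⟩, z', hz'⟩ | ⟨hinj, hnt⟩
    · refine pow_of_nilpotent W hzL (nilpotent_of_algebraic W hh hi hz₀' ?_ hπ hz'.1)
        (finrank_le_of_projector W₀ W π hπ)
      rw [← act_quasi W, ← numTriv_iff_rad]
      exact hnum
    · rw [zero_of_numerical W hzL ?_ hinj, zero_pow (by omega)]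
      intro α hα
      have hw := T.comp_mem (T.comp_mem hU hz₀) hU
      rw [show (T.dim X : ℤ) + m + (T.dim X - m) - T.dim X + (T.dim X + m) - T.dim X =
        2 * T.dim X - i by omega] at hw
      have hU2 : T.push (lift (𝟙 X) (𝟙 X)) (h ^ m) ∈ T.gr (X ⊗ X) (2 * T.dim X - i) := by
        rwa [show (T.dim X : ℤ) + m = 2 * T.dim X - i by omega] at hU
      have h1 := hnt _ (sub_mem hw hU2) hnum α hα
      have h2 := LinearMap.congr_fun (act_quasi W h m z₀) α
      rw [h1] at h2
      exact (sub_eq_zero.1 h2.symm)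

end Pool.Agent.WeilUniform
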